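import Pool.Agent.H77.ParaPeriodic

set_option autoImplicit false

open Pool.Agent.H77.Para

/-- A Hausdorff, topologically periodic, countably pracompact, pseudocompact, left
omega-precompact paratopological group with discontinuous inversion. -/
theorem Pool.Agent.Results.MP_82b063_al.Q1.result :
    ∃ (G : Type) (_ : Group G) (_ : TopologicalSpace G),
      ContinuousMul G ∧ T2Space G ∧ TopologicallyPeriodic G ∧ CountablyPracompact G ∧
        Pseudocompact G ∧ LeftOmegaPrecompact G ∧ ¬ ContinuousInv G := by
  obtain ⟨G, _, _, h⟩ := main
  exact ⟨G, inferInstance, inferInstance, h⟩
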